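import Mathlib

open Set Metric
open scoped ComplexConjugate InnerProductSpace

namespace Pool.Agent.Results.MP_8db9bd_an.Hilbert

universe u

section Defs
variable {X : Type u} [NormedAddCommGroup X] [NormedSpace ℂ X] {k : ℕ}

/-- Norm of the homogeneous polynomial `x ↦ A (x, …, x)`. -/
noncomputable def polyNorm (A : ContinuousMultilinearMap ℂ (fun _ : Fin k => X) X) : ℝ :=
  sSup {r | ∃ x : X, ‖x‖ = 1 ∧ r = ‖A fun _ => x‖}

/-- Numerical radius of the homogeneous polynomial `x ↦ A (x, …, x)`. -/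
noncomputable def numRad (A : ContinuousMultilinearMap ℂ (fun _ : Fin k => X) X) : ℝ :=
  sSup {r | ∃ (x : X) (f : X →L[ℂ] ℂ), ‖x‖ = 1 ∧ ‖f‖ = 1 ∧ f x = 1 ∧ r = ‖f (A fun _ => x)‖}

/-- The `k`-th polynomial numerical index. -/
noncomputable def nIdx (k : ℕ) (X : Type u) [NormedAddCommGroup X] [NormedSpace ℂ X] : ℝ :=
  sInf {r | ∃ A : ContinuousMultilinearMap ℂ (fun _ : Fin k => X) X, polyNorm A = 1 ∧ r = numRad A}

end Defs

variable {H : Type u} [NormedAddCommGroup H] [InnerProductSpace ℂ H] {k : ℕ}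

lemma diag_le (A : ContinuousMultilinearMap ℂ (fun _ : Fin k => H) H) (x : H) (hx : ‖x‖ = 1) :
    ‖A fun _ => x‖ ≤ ‖A‖ := by simpa [hx] using A.le_opNorm fun _ => x

lemma hom (A : ContinuousMultilinearMap ℂ (fun _ : Fin k => H) H) (c : ℂ) (x : H) :
    (A fun _ => c • x) = c ^ k • A fun _ => x := by
  simpa using A.map_smul_univ (fun _ => c) fun _ => x

lemma le_numRad (A : ContinuousMultilinearMap ℂ (fun _ : Fin k => H) H) (x : H) (hx : ‖x‖ = 1) :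
    ‖⟪x, A fun _ => x⟫_ℂ‖ ≤ numRad A := by
  refine le_csSup ⟨‖A‖, ?_⟩ ⟨x, innerSL ℂ x, hx, by simp [hx], by simp [hx], rfl⟩
  rintro r ⟨y, f, hy, hf, -, rfl⟩
  exact (f.le_opNorm _).trans (by rw [hf, one_mul]; exact diag_le A y hy)

lemma le_numRad' (A : ContinuousMultilinearMap ℂ (fun _ : Fin k => H) H) (x : H) (t : ℝ)
    (ht : 0 < t) (hx : ‖x‖ = t) : ‖⟪x, A fun _ => x⟫_ℂ‖ ≤ numRad A * t ^ (k + 1) := by
  have h := le_numRad A (((t⁻¹ : ℝ) : ℂ) • x) (by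
    rw [norm_smul, hx, Complex.norm_real, Real.norm_of_nonneg (by positivity)]; field_simp)
  rw [hom, inner_smul_left, inner_smul_right, norm_mul, norm_mul, norm_pow, Complex.norm_conj,
    Complex.norm_real, Real.norm_of_nonneg (by positivity), ← mul_assoc, ← pow_succ', inv_pow,
    inv_mul_le_iff₀ (by positivity), mul_comm] at h
  exact h

lemma curve (A : ContinuousMultilinearMap ℂ (fun _ : Fin k => H) H) (u w : H) (h : ⟪u, w⟫_ℂ = 0)
    (t : ℝ) (ht : 0 < t) (hn : ‖u‖ ^ 2 + ‖w‖ ^ 2 = t ^ 2) (s : ℝ) (h0 : 0 ≤ s) (h1 : s ≤ 1) :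
    ‖⟪(s : ℂ) • u + w, A fun _ => u + (s : ℂ) • w⟫_ℂ‖ ≤ numRad A * t ^ (k + 1) := by
  let P : ℂ → H := fun ζ => A fun _ => u + ζ • w
  have hP : Differentiable ℂ P :=
    (A.contDiff (n := 1)).differentiable_one.comp (differentiable_pi.mpr fun _ => by fun_prop)
  let Q : ℂ → ℂ := fun ζ => ζ * innerSL ℂ u (P ζ) + innerSL ℂ w (P ζ)
  have hQ : Differentiable ℂ Q := by fun_prop
  have := Complex.norm_le_of_forall_mem_frontier_norm_le (U := ball (0:ℂ) 1) isBounded_ball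
    hQ.diffContOnCl (C := numRad A * t ^ (k + 1)) (z := (s : ℂ)) ?_ ?_
  · refine le_trans (le_of_eq ?_) this
    simp only [Q, P, innerSL_apply_apply, inner_add_left, inner_smul_left, Complex.conj_ofReal]
  · intro ζ hζ
    rw [frontier_ball _ one_ne_zero, mem_sphere_zero_iff_norm] at hζ
    have e : Q ζ = ζ * ⟪u + ζ • w, P ζ⟫_ℂ := by
      have : ζ * conj ζ = 1 := by rw [Complex.mul_conj', hζ]; simp
      simp only [Q, innerSL_apply_apply, inner_add_left, inner_smul_left]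
      linear_combination (-⟪w, P ζ⟫_ℂ) * this
    rw [e, norm_mul, hζ, one_mul]
    refine le_numRad' A _ t ht ?_
    refine (pow_left_inj₀ (norm_nonneg _) ht.le two_ne_zero).mp ?_
    rw [@norm_add_sq ℂ, inner_smul_right, h, norm_smul, hζ, ← hn]; simp
  · rw [closure_ball _ one_ne_zero, mem_closedBall_zero_iff, Complex.norm_real,
      Real.norm_of_nonneg h0]; exact h1

lemma key (A : ContinuousMultilinearMap ℂ (fun _ : Fin k => H) H) (hk : 1 ≤ k) (a b : ℝ)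
    (ha : 0 < a) (hb : 0 < b) (hab : a ^ 2 + b ^ 2 = 1) (x : H) (hx : ‖x‖ = 1) :
    a ^ k * b * ‖A fun _ => x‖ ≤ numRad A := by
  have hv := le_numRad A x hx
  have v0 := (norm_nonneg _).trans hv
  obtain ⟨p, hp⟩ : ∃ p, p = A fun _ => x := ⟨_, rfl⟩
  rw [← hp] at hv ⊢
  have hxx : ⟪x, x⟫_ℂ = 1 := by rw [inner_self_eq_norm_sq_to_K, hx]; simp
  obtain ⟨ω, hω, hω2⟩ : ∃ ω : ℂ, ‖ω‖ = 1 ∧ ω * ⟪x, p⟫_ℂ = (‖⟪x, p⟫_ℂ‖ : ℂ) := by
    obtain ⟨c, h1, h2⟩ := Complex.exists_norm_mul_eq_self ⟪x, p⟫_ℂ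
    refine ⟨conj c, by simpa using h1, ?_⟩
    have : c * conj c = 1 := by rw [Complex.mul_conj', h1]; simp
    linear_combination (‖⟪x, p⟫_ℂ‖ : ℂ) * this - conj c * h2
  obtain ⟨γ, hγ⟩ : ∃ γ : ℝ, γ = ‖⟪x, p⟫_ℂ‖ := ⟨_, rfl⟩
  rw [← hγ] at hv hω2
  have γ0 : 0 ≤ γ := hγ ▸ norm_nonneg _
  obtain ⟨w, hw⟩ : ∃ w, w = ω • p - (γ : ℂ) • x := ⟨_, rfl⟩
  have hxw : ⟪x, w⟫_ℂ = 0 := by
    rw [hw, inner_sub_right, inner_smul_right, inner_smul_right, hω2, hxx]; ring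
  have a1 : a ≤ 1 := by nlinarith
  have b1 : b ≤ 1 := by nlinarith
  by_cases w0 : w = 0
  · have : ‖p‖ = γ := by
      have h := congrArg norm (sub_eq_zero.mp (hw ▸ w0 : ω • p - (γ : ℂ) • x = 0))
      rwa [norm_smul, norm_smul, hω, hx, one_mul, mul_one, Complex.norm_real,
        Real.norm_of_nonneg γ0] at h
    rw [this]
    exact (mul_le_of_le_one_left γ0 (mul_le_one₀ (pow_le_one₀ ha.le a1) hb.le b1)).trans hv
  obtain ⟨δ, hδ⟩ : ∃ δ : ℝ, δ = ‖w‖ := ⟨_, rfl⟩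
  have δ0 : 0 < δ := hδ ▸ norm_pos_iff.mpr w0
  obtain ⟨e, he⟩ : ∃ e, e = ((δ⁻¹ : ℝ) : ℂ) • w := ⟨_, rfl⟩
  have en : ‖e‖ = 1 := by
    rw [he, norm_smul, ← hδ, Complex.norm_real, Real.norm_of_nonneg (by positivity)]; field_simp
  have hxe : ⟪x, e⟫_ℂ = 0 := by rw [he, inner_smul_right, hxw, mul_zero]
  have hex : ⟪e, x⟫_ℂ = 0 := by rw [← inner_conj_symm, hxe, map_zero]
  have hee : ⟪e, e⟫_ℂ = 1 := by rw [inner_self_eq_norm_sq_to_K, en]; simp
  have hpe : ω • p = (γ : ℂ) • x + (δ : ℂ) • e := by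
    rw [he, smul_smul, ← Complex.ofReal_mul, mul_inv_cancel₀ δ0.ne', hw]; simp
  have nrm : ∀ α β : ℝ, ‖(α : ℂ) • x + (β : ℂ) • e‖ ^ 2 = α ^ 2 + β ^ 2 := by
    intro α β
    rw [@norm_add_sq ℂ, inner_smul_left, inner_smul_right, hxe, norm_smul, norm_smul, hx, en]
    simp
  have pn : ‖p‖ ^ 2 = γ ^ 2 + δ ^ 2 := by rw [← nrm, ← hpe, norm_smul, hω, one_mul]
  obtain ⟨s, ⟨s0, s1⟩, hs⟩ : ∃ s ∈ Icc (0:ℝ) 1, γ * a * b * (s ^ 2 - 1) + δ * s = 0 := by
    refine intermediate_value_Icc zero_le_one (f := fun s => γ * a * b * (s ^ 2 - 1) + δ * s)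
      (by fun_prop) ⟨?_, ?_⟩
    · have : 0 ≤ γ * a * b := by positivity
      show γ * a * b * (0 ^ 2 - 1) + δ * 0 ≤ 0
      linarith
    · show 0 ≤ γ * a * b * (1 ^ 2 - 1) + δ * 1
      linarith
  obtain ⟨t, t0, ht⟩ : ∃ t : ℝ, 0 < t ∧ t ^ 2 = a ^ 2 + s ^ 2 * b ^ 2 :=
    ⟨√(a ^ 2 + s ^ 2 * b ^ 2), Real.sqrt_pos.mpr (by positivity), Real.sq_sqrt (by positivity)⟩
  have hc := curve A (((a * a : ℝ) : ℂ) • x + ((-(a * s * b) : ℝ) : ℂ) • e)
    (((b * s * b : ℝ) : ℂ) • x + ((b * a : ℝ) : ℂ) • e) (by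
      simp only [inner_add_left, inner_add_right, inner_smul_left, inner_smul_right, hxx, hxe, hex,
        hee, Complex.conj_ofReal]
      push_cast; ring) t t0 (by
      rw [nrm, nrm, ht]
      linear_combination (a ^ 2 + s ^ 2 * b ^ 2) * hab) s s0 s1
  have e1 : (((a * a : ℝ) : ℂ) • x + ((-(a * s * b) : ℝ) : ℂ) • e) +
      (s : ℂ) • (((b * s * b : ℝ) : ℂ) • x + ((b * a : ℝ) : ℂ) • e) = ((t ^ 2 : ℝ) : ℂ) • x := by
    rw [ht]; push_cast; module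
  have e2 : (s : ℂ) • (((a * a : ℝ) : ℂ) • x + ((-(a * s * b) : ℝ) : ℂ) • e) +
      (((b * s * b : ℝ) : ℂ) • x + ((b * a : ℝ) : ℂ) • e) =
      (s : ℂ) • x + ((a * b * (1 - s ^ 2) : ℝ) : ℂ) • e := by
    have : (s : ℂ) = s * ((a : ℂ) ^ 2 + (b : ℂ) ^ 2) := by
      rw [show (a : ℂ) ^ 2 + (b : ℂ) ^ 2 = 1 by exact_mod_cast hab, mul_one]
    conv_rhs => rw [this]
    push_cast; module
  rw [e1, e2, hom, ← hp, inner_smul_right, norm_mul, norm_pow, Complex.norm_real,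
    Real.norm_of_nonneg (sq_nonneg t)] at hc
  have s2 : 0 ≤ 1 - s ^ 2 := by nlinarith
  have e3 : ‖⟪(s : ℂ) • x + ((a * b * (1 - s ^ 2) : ℝ) : ℂ) • e, p⟫_ℂ‖ =
      s * γ + a * b * (1 - s ^ 2) * δ := by
    have e0 : ∀ y : H, ‖⟪y, p⟫_ℂ‖ = ‖⟪y, ω • p⟫_ℂ‖ := fun y => by
      rw [inner_smul_right, norm_mul, hω, one_mul]
    rw [e0, hpe]
    simp only [inner_add_left, inner_add_right, inner_smul_left, inner_smul_right, hxx, hxe, hex,
      hee, Complex.conj_ofReal, mul_zero, mul_one, add_zero, zero_add]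
    rw [← Complex.ofReal_mul, ← Complex.ofReal_mul, ← Complex.ofReal_add, Complex.norm_real,
      Real.norm_of_nonneg (add_nonneg (mul_nonneg γ0 s0)
        (mul_nonneg δ0.le (mul_nonneg (mul_pos ha hb).le s2)))]
    ring
  rw [e3] at hc
  have e4 : b * t * ‖p‖ ≤ s * γ + a * b * (1 - s ^ 2) * δ := by
    refine (pow_le_pow_iff_left₀ (by positivity) (by positivity) two_ne_zero).mp ?_
    have i1 : (s * γ + a * b * (1 - s ^ 2) * δ) ^ 2 =
        (s ^ 2 + (a * b * (1 - s ^ 2)) ^ 2) * (γ ^ 2 + δ ^ 2) := by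
      linear_combination (-(γ * a * b * (s ^ 2 - 1) + δ * s)) * hs
    have i2 : s ^ 2 + (a * b * (1 - s ^ 2)) ^ 2 =
        (b ^ 2 + s ^ 2 * a ^ 2) * (a ^ 2 + s ^ 2 * b ^ 2) := by
      linear_combination (-s ^ 2 * (a ^ 2 + b ^ 2 + 1)) * hab
    rw [i1, i2, mul_pow, mul_pow, pn, ht]
    gcongr
    nlinarith [sq_nonneg (s * a)]
  have at' : a ≤ t := by
    refine (pow_le_pow_iff_left₀ ha.le t0.le two_ne_zero).mp ?_
    rw [ht]; nlinarith [sq_nonneg (s * b)]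
  have e5 : a ^ k ≤ t ^ k := pow_le_pow_left₀ ha.le at' k
  have e6 : (t ^ 2) ^ k * (b * t * ‖p‖) ≤ numRad A * t ^ (k + 1) :=
    (mul_le_mul_of_nonneg_left e4 (by positivity)).trans hc
  have e7 : t ^ k * b * ‖p‖ ≤ numRad A := by
    refine le_of_mul_le_mul_right ?_ (pow_pos t0 (k + 1))
    refine le_trans (le_of_eq ?_) e6
    ring
  exact le_trans (by gcongr) e7

lemma amgm (hk : 1 ≤ k) (t s : ℝ) (ht : 0 ≤ t) (h : t + s ≤ 1) :
    t ^ k * s ≤ (k : ℝ) ^ k / (k + 1) ^ (k + 1) := by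
  have k0 : (0:ℝ) < k := by exact_mod_cast hk
  rcases eq_or_lt_of_le ht with rfl | ht
  · rw [zero_pow (by omega), zero_mul]; positivity
  obtain ⟨z, hz⟩ : ∃ z : ℝ, z = t * (k + 1) / k := ⟨_, rfl⟩
  have z0 : 0 < z := by rw [hz]; positivity
  have h1 := one_add_mul_le_pow (a := z⁻¹ - 1) (by have := inv_pos.mpr z0; linarith) k
  have h2 : 1 - z ≤ z⁻¹ - 1 := by
    rw [le_sub_iff_add_le, inv_eq_one_div, le_div_iff₀ z0]; nlinarith [sq_nonneg (z - 1)]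
  have h3 : (k + 1) * s ≤ (z ^ k)⁻¹ := by
    rw [add_sub_cancel, inv_pow] at h1
    have : (k:ℝ) * z = t * (k + 1) := by rw [hz]; field_simp
    nlinarith
  rw [hz, div_pow, mul_pow, inv_div, le_div_iff₀ (by positivity)] at h3
  rw [le_div_iff₀ (by positivity), pow_succ]
  linarith

lemma numRad_le [CompleteSpace H] (A : ContinuousMultilinearMap ℂ (fun _ : Fin k => H) H) (c : ℝ)
    (hc : 0 ≤ c) (h : ∀ x : H, ‖x‖ = 1 → ‖⟪x, A fun _ => x⟫_ℂ‖ ≤ c) : numRad A ≤ c := by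
  refine Real.sSup_le ?_ hc
  rintro r ⟨x, f, hx, hf, hfx, rfl⟩
  obtain ⟨y, rfl⟩ := (InnerProductSpace.toDual ℂ H).surjective f
  rw [LinearIsometryEquiv.norm_map] at hf
  have : y = x := (inner_eq_one_iff_of_norm_eq_one hf hx).mp hfx
  subst this
  exact h y hx

noncomputable def ex (k : ℕ) (e₁ e₂ : H) : ContinuousMultilinearMap ℂ (fun _ : Fin k => H) H :=
  ((ContinuousMultilinearMap.mkPiAlgebra ℂ (Fin k) ℂ).compContinuousLinearMap
    fun _ => innerSL ℂ e₁).smulRight e₂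

lemma ex_apply (e₁ e₂ x : H) : (ex k e₁ e₂ fun _ => x) = ⟪e₁, x⟫_ℂ ^ k • e₂ := by simp [ex]

lemma ex_norm (e₁ e₂ : H) (h1 : ‖e₁‖ = 1) (h2 : ‖e₂‖ = 1) : polyNorm (ex k e₁ e₂) = 1 := by
  refine IsGreatest.csSup_eq ⟨⟨e₁, h1, ?_⟩, ?_⟩
  · rw [ex_apply, inner_self_eq_norm_sq_to_K, norm_smul, h1, h2]; simp
  · rintro r ⟨x, hx, rfl⟩
    rw [ex_apply, norm_smul, h2, mul_one, norm_pow]
    exact pow_le_one₀ (norm_nonneg _) ((norm_inner_le_norm _ _).trans (by rw [h1, hx, one_mul]))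

lemma nIdx_eq [CompleteSpace H] (c : ℝ) (hc : 0 < c)
    (h : ∀ (A : ContinuousMultilinearMap ℂ (fun _ : Fin k => H) H) (x : H), ‖x‖ = 1 →
      c * ‖A fun _ => x‖ ≤ numRad A) (e₁ e₂ : H) (h1 : ‖e₁‖ = 1) (h2 : ‖e₂‖ = 1)
    (h3 : ∀ x : H, ‖x‖ = 1 → ‖⟪e₁, x⟫_ℂ‖ ^ k * ‖⟪e₂, x⟫_ℂ‖ ≤ c) : nIdx k H = c := by
  have low : ∀ A : ContinuousMultilinearMap ℂ (fun _ : Fin k => H) H, polyNorm A = 1 →
      c ≤ numRad A := by
    intro A hA
    have : polyNorm A ≤ numRad A / c := by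
      refine Real.sSup_le ?_ (div_nonneg ((norm_nonneg _).trans (le_numRad A e₁ h1)) hc.le)
      rintro r ⟨x, hx, rfl⟩
      rw [le_div_iff₀' hc]; exact h A x hx
    rwa [hA, le_div_iff₀ hc, one_mul] at this
  refine IsLeast.csInf_eq ⟨⟨ex k e₁ e₂, ex_norm e₁ e₂ h1 h2, le_antisymm
    (low _ (ex_norm e₁ e₂ h1 h2)) (numRad_le _ c hc.le fun x hx => ?_)⟩, ?_⟩
  · rw [ex_apply, inner_smul_right, norm_mul, norm_pow, norm_inner_symm x]
    exact h3 x hx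
  · rintro r ⟨A, hA, rfl⟩
    exact low A hA

theorem result (H : Type u) [NormedAddCommGroup H] [InnerProductSpace ℂ H] [CompleteSpace H]
    (k : ℕ) (hk : 1 ≤ k) : (Module.rank ℂ H = 1 → nIdx k H = 1) ∧
    (1 < Module.rank ℂ H → nIdx k H = √((k : ℝ) ^ k / (k + 1) ^ (k + 1))) := by
  classical
  have k0 : (0:ℝ) < k := by exact_mod_cast hk
  constructor
  · intro h
    obtain ⟨v, v0, hv⟩ := rank_eq_one_iff.mp h
    have hn : ‖((‖v‖⁻¹ : ℝ) : ℂ) • v‖ = 1 := by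
      rw [norm_smul, Complex.norm_real, norm_inv, norm_norm, inv_mul_cancel₀ (norm_ne_zero_iff.mpr v0)]
    refine nIdx_eq 1 one_pos (fun A x hx => ?_) _ _ hn hn fun x hx => ?_
    · refine le_trans (le_of_eq ?_) (le_numRad A x hx)
      obtain ⟨c, hc⟩ := hv (A fun _ => x)
      obtain ⟨d, rfl⟩ := hv x
      rw [← hc, inner_smul_left, inner_smul_right, inner_self_eq_norm_sq_to_K]
      simp only [norm_smul, norm_mul, Complex.norm_conj, norm_pow, RCLike.norm_ofReal, abs_norm] at hx ⊢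
      linear_combination (-‖c‖ * ‖v‖) * hx
    · have := (norm_inner_le_norm (𝕜 := ℂ) (((‖v‖⁻¹ : ℝ) : ℂ) • v) x).trans
        (le_of_eq (by rw [hn, hx, one_mul]))
      exact mul_le_one₀ (pow_le_one₀ (norm_nonneg _) this) (norm_nonneg _) this
  · intro h
    obtain ⟨w, b, hb⟩ := exists_hilbertBasis ℂ H
    have hw : ∃ i j : w, i ≠ j := by
      by_contra hn
      push Not at hn
      refine absurd h (not_lt.mpr ?_)
      rcases isEmpty_or_nonempty w with h0 | ⟨⟨i⟩⟩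
      · refine rank_le_one_iff.mpr ⟨0, fun v => ⟨0, ?_⟩⟩
        simpa using (b.hasSum_repr v).unique hasSum_empty |>.symm
      · refine rank_le_one_iff.mpr ⟨b i, fun v => ⟨b.repr v i, ?_⟩⟩
        exact (hasSum_single i fun j hj => absurd (hn j i) hj).unique (b.hasSum_repr v)
    obtain ⟨i, j, hij⟩ := hw
    refine nIdx_eq _ (by positivity) (fun A x hx => ?_) (b i) (b j) (b.orthonormal.1 i)
      (b.orthonormal.1 j) fun x hx => ?_
    · have := key A hk √(k / (k + 1)) √(1 / (k + 1)) (by positivity) (by positivity) (by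
        rw [Real.sq_sqrt (by positivity), Real.sq_sqrt (by positivity)]; field_simp) x hx
      refine le_trans (le_of_eq ?_) this
      congr 1
      rw [Real.sqrt_eq_iff_mul_self_eq (by positivity) (by positivity), ← sq, mul_pow, ← pow_mul,
        mul_comm k 2, pow_mul, Real.sq_sqrt (by positivity), Real.sq_sqrt (by positivity), div_pow,
        pow_succ]
      field_simp
    · refine Real.le_sqrt_of_sq_le ?_
      rw [mul_pow, ← pow_mul, mul_comm k 2, pow_mul]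
      refine amgm hk _ _ (sq_nonneg _) ?_
      have := b.orthonormal.sum_inner_products_le x (s := {i, j})
      rwa [Finset.sum_pair hij, hx, one_pow] at this

end Pool.Agent.Results.MP_8db9bd_an.Hilbert
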